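import Pool.Agent.MWLE.StmtsB

set_option autoImplicit false

/-!
# Block MWLE, row GFB (helper89): the image of the second part
-/

namespace Pool.Agent.MWLE.H89

open Pool.Agent.Helper14_MV Pool.Agent.Helper2_MV Pool.Agent.MWLE
open Pool.Agent.MWGN (gh gh_succ)

theorem cp_succ (s k : ℕ) : cp s (k + 1) = cp s k ++ [pin (s + k), con (s + k), con (s + k)] := by
  unfold cp
  rw [List.range_succ, List.flatMap_append, List.flatMap_cons, List.flatMap_nil, List.append_nil]

theorem gfb_aux (m : ℕ) (f : ℕ → List ℕ) (k : ℕ) (hk : k ≤ m) :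
    gh (fun i => f (pin (m + 1 + i))) (fun i => if i = 0 then f 1 else if i ≤ m then
      f (con (m + 1 + i)) ++ f (con (m + 1 + i)) else []) (k + 1) =
    f (pin (m + 1)) ++ (f 1 ++ (cp (m + 2) k).flatMap f) := by
  induction k with
  | zero =>
    rw [gh_succ]
    have e1 : cp (m + 2) 0 = [] := rfl
    have e2 : ∀ g h : ℕ → List ℕ, gh g h 0 = [] := fun _ _ => rfl
    rw [e1, e2]
    simp
  | succ k ih =>
    rw [gh_succ, ih (by omega), cp_succ]
    have e : m + 1 + (k + 1) = m + 2 + k := by omega
    have h1 : ¬ (k + 1 = 0) := by omega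
    simp only [h1, if_false, hk, if_true, e, List.flatMap_append, List.flatMap_cons,
      List.flatMap_nil, List.append_nil, List.append_assoc]

/-- **GFB** -/
theorem gfb : GfbStmt := by
  intro m g f
  rw [gh_succ, gfb_aux m f m (le_refl m)]
  have e : m + 1 + (m + 1) = 2 * m + 2 := by omega
  have h1 : ¬ (m + 1 = 0) := by omega
  have h2 : ¬ (m + 1 ≤ m) := by omega
  unfold Nx
  cases g
  · simp only [h1, h2, if_false, e, List.flatMap_append, List.flatMap_cons,
      List.flatMap_nil, List.append_nil, List.append_assoc, List.nil_append, Bool.false_eq_true]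
  · simp only [h1, h2, if_false, if_true, e, List.flatMap_append, List.flatMap_cons,
      List.flatMap_nil, List.append_nil, List.append_assoc]

end Pool.Agent.MWLE.H89
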